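import Pool.Agent.H568.LB.Stm

/-!
Project LB, the computation N3.
-/

set_option autoImplicit false

open Finset Filter Topology Pool.Agent.N792 Pool.Agent.N791.U Pool.Agent.N792.RX5 Pool.Agent.H568 Pool.Agent.H568.LB

namespace Pool.Agent.H385.LB

/-- the weight of a cell is bounded in terms of two regions -/
lemma n3_w (c1 c : ℕ) : wF 1200 [c, c1] ≤ 2 * (if c1 ≤ c ∧ 2 * c + c1 ≤ 2403 ∧ 1350 ≤ c + c1 then 1 else 0) +
    (if c1 ≤ c ∧ c + c1 ≤ 1051 ∧ 1351 ≤ 2 * c1 + c then 1 else 0) := by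
  unfold wF okl
  simp only [List.pairwise_cons, List.mem_cons, List.not_mem_nil, or_false, forall_eq, List.Pairwise.nil, and_true,
    List.sum_cons, List.sum_nil, List.headD_cons, List.length_cons, List.length_nil, Bool.and_eq_true,
    decide_eq_true_eq, IsEmpty.forall_iff, implies_true, ivs, posd, ps2, List.map_cons, List.map_nil, add_zero]
  split_ifs <;> omega

/-- the terms -/
def n3_f (c1 c : ℕ) : ℕ := lamN c * gN 1200 (c + c1)

lemma n3_le (c1 : ℕ) (h : 300 < c1) :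
    ∑ c ∈ Ioc 300 1201, lamN c * (wF 1200 [c, c1] * gN 1200 ([c, c1] : List ℕ).sum) ≤
      2 * ∑ c ∈ Ico (max c1 (1350 - c1)) ((2403 - c1) / 2 + 1), n3_f c1 c +
        ∑ c ∈ Ico (max c1 (1351 - 2 * c1)) (1052 - c1), n3_f c1 c := by
  have e1 : ∑ c ∈ Ico (max c1 (1350 - c1)) ((2403 - c1) / 2 + 1), n3_f c1 c =
      ∑ c ∈ Ioc 300 1201, (if c1 ≤ c ∧ 2 * c + c1 ≤ 2403 ∧ 1350 ≤ c + c1 then n3_f c1 c else 0) := by
    rw [← sum_filter]
    apply sum_congr _ (fun _ _ => rfl)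
    ext c
    simp only [mem_Ico, mem_filter, mem_Ioc]
    omega
  have e2 : ∑ c ∈ Ico (max c1 (1351 - 2 * c1)) (1052 - c1), n3_f c1 c =
      ∑ c ∈ Ioc 300 1201, (if c1 ≤ c ∧ c + c1 ≤ 1051 ∧ 1351 ≤ 2 * c1 + c then n3_f c1 c else 0) := by
    rw [← sum_filter]
    apply sum_congr _ (fun _ _ => rfl)
    ext c
    simp only [mem_Ico, mem_filter, mem_Ioc]
    omega
  rw [e1, e2, mul_sum, ← sum_add_distrib]
  apply sum_le_sum
  intro c _
  have h1 := n3_w c1 c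
  have e3 : ([c, c1] : List ℕ).sum = c + c1 := by simp
  rw [e3]
  calc lamN c * (wF 1200 [c, c1] * gN 1200 (c + c1)) = wF 1200 [c, c1] * n3_f c1 c := by unfold n3_f; ring
    _ ≤ (2 * (if c1 ≤ c ∧ 2 * c + c1 ≤ 2403 ∧ 1350 ≤ c + c1 then 1 else 0) +
        (if c1 ≤ c ∧ c + c1 ≤ 1051 ∧ 1351 ≤ 2 * c1 + c then 1 else 0)) * n3_f c1 c := Nat.mul_le_mul_right _ h1
    _ = _ := by split_ifs <;> ring

/-- the fast sum over `lo ≤ c < lo + n` -/
def n3_s (c1 lo : ℕ) (n : ℕ) : ℕ :=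
  Nat.rec 0 (fun i ih => Nat.add ih (Nat.mul
    (Nat.add (Nat.div (Nat.mul 100000000 (Nat.sub (Nat.mul 2 (Nat.add lo i)) 1))
      (Nat.mul (Nat.mul 2 (Nat.add lo i)) (Nat.sub (Nat.add lo i) 1))) 2)
    (Nat.add (Nat.div 12000000000000 (Nat.sub 23998800 (Nat.mul 10000 (Nat.add (Nat.add lo i) c1)))) 1))) n

lemma n3_s_eq (c1 lo n : ℕ) : n3_s c1 lo n = ∑ i ∈ range n, n3_f c1 (lo + i) := by
  induction n with
  | zero => rfl
  | succ n ih =>
    rw [sum_range_succ, ← ih]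
    rfl

lemma n3_Ico (c1 lo hi : ℕ) : ∑ c ∈ Ico lo hi, n3_f c1 c = n3_s c1 lo (hi - lo) := by
  rw [n3_s_eq, sum_Ico_eq_sum_range]

/-- the fast sum over the first cell `301 + i`, `i < n` -/
def n3_t (n : ℕ) : ℕ :=
  Nat.rec 0 (fun i ih => Nat.add ih (Nat.mul
    (Nat.add (Nat.div (Nat.mul 100000000 (Nat.sub (Nat.mul 2 (Nat.add 301 i)) 1))
      (Nat.mul (Nat.mul 2 (Nat.add 301 i)) (Nat.sub (Nat.add 301 i) 1))) 2)
    (Nat.add (Nat.mul 2 (n3_s (Nat.add 301 i) (max (Nat.add 301 i) (Nat.sub 1350 (Nat.add 301 i)))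
      (Nat.sub (Nat.add (Nat.div (Nat.sub 2403 (Nat.add 301 i)) 2) 1) (max (Nat.add 301 i) (Nat.sub 1350 (Nat.add 301 i))))))
      (n3_s (Nat.add 301 i) (max (Nat.add 301 i) (Nat.sub 1351 (Nat.mul 2 (Nat.add 301 i))))
      (Nat.sub (Nat.sub 1052 (Nat.add 301 i)) (max (Nat.add 301 i) (Nat.sub 1351 (Nat.mul 2 (Nat.add 301 i))))))))) n

lemma n3_t_eq (n : ℕ) : n3_t n = ∑ i ∈ range n, lamN (301 + i) *
    (2 * ∑ c ∈ Ico (max (301 + i) (1350 - (301 + i))) ((2403 - (301 + i)) / 2 + 1), n3_f (301 + i) c +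
        ∑ c ∈ Ico (max (301 + i) (1351 - 2 * (301 + i))) (1052 - (301 + i)), n3_f (301 + i) c) := by
  induction n with
  | zero => rfl
  | succ n ih =>
    rw [sum_range_succ, ← ih, n3_Ico, n3_Ico]
    rfl

set_option maxRecDepth 100000 in
lemma n3_num : n3_t 901 ≤ 3077 * 10 ^ 18 := by
  decide +kernel

theorem t_N3 : S_N3 := by
  unfold S_N3
  refine le_trans ?_ n3_num
  rw [n3_t_eq]
  have e : ∀ f : ℕ → ℕ, ∑ i ∈ Ioc 300 1201, f i = ∑ i ∈ range 901, f (301 + i) := by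
    intro f
    have h := sum_Ioc_sN f 300 901
    rw [sN_eq] at h
    exact h
  rw [← e (fun c1 => lamN c1 * (2 * ∑ c ∈ Ico (max c1 (1350 - c1)) ((2403 - c1) / 2 + 1), n3_f c1 c +
        ∑ c ∈ Ico (max c1 (1351 - 2 * c1)) (1052 - c1), n3_f c1 c))]
  simp only [Pool.Agent.H568.LB.cs]
  apply sum_le_sum
  intro c1 h1
  rw [mem_Ioc] at h1
  exact Nat.mul_le_mul_left _ (n3_le c1 h1.1)

end Pool.Agent.H385.LB
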